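import Mathlib

namespace Pool.Agent.Results.MP_c68965_al.Counter

instance : Fact (Nat.Prime 31) := ⟨by norm_num⟩

abbrev F := ZMod 31

@[ext] structure W where
  a : F
  b : F
  u : Fˣ

instance : Mul W := ⟨fun x y => ⟨x.a + x.u * y.a, x.b + x.u * y.b, x.u * y.u⟩⟩
instance : One W := ⟨⟨0, 0, 1⟩⟩
instance : Inv W := ⟨fun x => ⟨-(↑x.u⁻¹ * x.a), -(↑x.u⁻¹ * x.b), x.u⁻¹⟩⟩

@[simp] theorem mul_a (x y : W) : (x * y).a = x.a + x.u * y.a := rfl
@[simp] theorem mul_b (x y : W) : (x * y).b = x.b + x.u * y.b := rfl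
@[simp] theorem mul_u (x y : W) : (x * y).u = x.u * y.u := rfl
@[simp] theorem one_a : (1 : W).a = 0 := rfl
@[simp] theorem one_b : (1 : W).b = 0 := rfl
@[simp] theorem one_u : (1 : W).u = 1 := rfl
@[simp] theorem inv_a (x : W) : x⁻¹.a = -(↑x.u⁻¹ * x.a) := rfl
@[simp] theorem inv_b (x : W) : x⁻¹.b = -(↑x.u⁻¹ * x.b) := rfl
@[simp] theorem inv_u (x : W) : x⁻¹.u = x.u⁻¹ := rfl

instance : Group W := Group.ofLeftAxioms
  (fun x y z => by ext <;> simp [mul_add, add_assoc, mul_assoc])
  (fun x => by ext <;> simp) (fun x => W.ext (neg_add_cancel _) (neg_add_cancel _) (inv_mul_cancel _))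

def e : W ≃ F × F × Fˣ := ⟨fun x => (x.a, x.b, x.u), fun p => ⟨p.1, p.2.1, p.2.2⟩,
  fun _ => rfl, fun _ => rfl⟩

instance : Finite W := Finite.of_equiv _ e.symm

theorem card : Nat.card W = 28830 := by
  rw [Nat.card_congr e, Nat.card_prod, Nat.card_prod, Nat.card_units, Nat.card_zmod]

def act (s t : F) (g : W) (x : F) : F := s * g.a + t * g.b + g.u * x

theorem act_mul (s t : F) (g h : W) (x : F) : act s t (g * h) x = act s t g (act s t h x) := by
  simp [act]; ring

theorem act_one (s t x : F) : act s t 1 x = x := by simp [act]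

def M (s t p : F) : Subgroup W where
  carrier := {g | act s t g p = p}
  mul_mem' {g h} hg hh := by
    simp only [Set.mem_ofPred_eq] at *
    rw [act_mul, hh, hg]
  one_mem' := act_one s t p
  inv_mem' {g} hg := by
    simp only [Set.mem_ofPred_eq] at *
    conv_lhs => rw [← hg, ← act_mul, inv_mul_cancel, act_one]

theorem mem_M {s t p : F} {g : W} : g ∈ M s t p ↔ s * g.a + t * g.b + g.u * p = p := Iff.rfl

theorem coatom (s t p x y : F) (h : s * x + t * y = 1) : IsCoatom (M s t p) := by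
  refine ⟨fun ht => ?_, fun H hH => ?_⟩
  · have : (⟨x, y, 1⟩ : W) ∈ M s t p := by rw [ht]; trivial
    rw [mem_M] at this
    simp [h] at this
  · obtain ⟨k, hk, hk2⟩ := SetLike.exists_of_lt hH
    rw [eq_top_iff]
    intro g _
    by_cases hg : g ∈ M s t p
    · exact hH.le hg
    have h1 : act s t k p - p ≠ 0 := sub_ne_zero.mpr hk2
    have h2 : act s t g p - p ≠ 0 := sub_ne_zero.mpr hg
    let u : F := (act s t g p - p) / (act s t k p - p)
    let m : W := ⟨(p - u * p) * x, (p - u * p) * y, Units.mk0 u (div_ne_zero h2 h1)⟩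
    have hm : ∀ z, act s t m z = u * (z - p) + p := fun z => by
      simp only [act, m, Units.val_mk0]
      linear_combination (p - u * p) * h
    have h3 : m ∈ M s t p := by
      change act s t m p = p
      rw [hm]; ring
    have h4 : (m * k)⁻¹ * g ∈ M s t p := by
      change act s t _ p = p
      have : act s t g p = act s t (m * k) p := by
        rw [act_mul, hm, div_mul_cancel₀ _ h1]; ring
      rw [act_mul, this, ← act_mul, inv_mul_cancel, act_one]
    have := H.mul_mem (H.mul_mem (hH.le h3) hk) (hH.le h4)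
    rwa [mul_inv_cancel_left] at this

theorem inconj (s t p s' t' p' x y : F) (h : s * x + t * y = 0) (h' : s' * x + t' * y ≠ 0) (g : W) :
    (M s t p).map (MulAut.conj g).toMonoidHom ≠ M s' t' p' := by
  intro e
  have h1 : g * ⟨x, y, 1⟩ * g⁻¹ ∈ M s' t' p' := by
    rw [← e]
    exact ⟨⟨x, y, 1⟩, by simp [mem_M, h], rfl⟩
  rw [mem_M] at h1
  simp only [mul_a, mul_b, mul_u, inv_a, inv_b, inv_u, mul_one, mul_inv_cancel, Units.val_one,
    one_mul, mul_neg, Units.mul_inv_cancel_left] at h1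
  apply mul_ne_zero g.u.ne_zero h'
  linear_combination h1

def pr : W →* Fˣ := ⟨⟨W.u, rfl⟩, fun _ _ => rfl⟩

def inc : Multiplicative (F × F) →* W where
  toFun v := ⟨v.toAdd.1, v.toAdd.2, 1⟩
  map_one' := rfl
  map_mul' v w := by ext <;> simp

theorem result : ∃ (G : Type) (_ : Group G), Finite G ∧ Nontrivial G ∧ Group.IsSolvable G ∧
    ∃ (k : ℕ) (M : Fin k → Subgroup G), 1 ≤ k ∧ (∀ i, IsCoatom (M i)) ∧
      (∀ i j, i ≠ j → ∀ g : G, (M i).map (MulAut.conj g).toMonoidHom ≠ M j) ∧
      ⨅ i, M i = frattini G ∧ k < (Nat.card G).primeFactors.card := by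
  have hc : ∀ i : Fin 3, IsCoatom (![M 1 0 0, M 0 1 0, M 1 (-1) 1] i) := fun i => by
    fin_cases i
    · exact coatom _ _ _ 1 0 (by simp)
    · exact coatom _ _ _ 0 1 (by simp)
    · exact coatom _ _ _ 1 0 (by simp)
  refine ⟨W, inferInstance, inferInstance, e.nontrivial,
    Group.isSolvable_of_ker_le_range inc pr fun g hg => ?_, 3,
    ![M 1 0 0, M 0 1 0, M 1 (-1) 1], by norm_num, hc, fun i j hij g => ?_, ?_, ?_⟩
  · exact ⟨Multiplicative.ofAdd (g.a, g.b), W.ext rfl rfl (Eq.symm hg)⟩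
  · fin_cases i <;> fin_cases j
    · exact absurd rfl hij
    · exact inconj _ _ _ _ _ _ 0 1 (by simp) (by simp) g
    · exact inconj _ _ _ _ _ _ 0 1 (by simp) (by simp) g
    · exact inconj _ _ _ _ _ _ 1 0 (by simp) (by simp) g
    · exact absurd rfl hij
    · exact inconj _ _ _ _ _ _ 1 0 (by simp) (by simp) g
    · exact inconj _ _ _ _ _ _ 1 1 (by simp) (by simp) g
    · exact inconj _ _ _ _ _ _ 1 1 (by simp) (by simp) g
    · exact absurd rfl hij
  · refine le_antisymm (fun g hg => ?_) (le_iInf fun i => frattini_le_coatom (hc i))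
    rw [Subgroup.mem_iInf] at hg
    have h0 : 1 * g.a + 0 * g.b + g.u * 0 = 0 := hg 0
    have h1 : 0 * g.a + 1 * g.b + g.u * 0 = 0 := hg 1
    have h2 : 1 * g.a + (-1) * g.b + g.u * 1 = 1 := hg 2
    have : g = 1 := by
      ext
      · simpa using h0
      · simpa using h1
      · simp only [one_u, Units.val_one]
        linear_combination h2 - h0 + h1
    rw [this]
    exact Subgroup.one_mem _
  · rw [card]
    have : ({2, 3, 5, 31} : Finset ℕ) ⊆ Nat.primeFactors 28830 := by
      intro p hp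
      simp only [Finset.mem_insert, Finset.mem_singleton] at hp
      rcases hp with rfl | rfl | rfl | rfl <;> norm_num [Nat.mem_primeFactors]
    exact lt_of_lt_of_le (by decide) (Finset.card_le_card this)

end Pool.Agent.Results.MP_c68965_al.Counter
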